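import Pool.Agent.TH915.PC.Fin

/-!
# Primes `8 d ^ 2 + 1 = 64 b ^ 2 + 9` at almost every real point of the Pell conic

The real points of the conic `d ^ 2 - 8 b ^ 2 = 1` (with `d > 0`) are moved by the unit `3 + √8`. The
positive integer points are the orbit of `(1, 0)`, and the admissible primes are the primes among
`W 1 n`, where `W x n = ⌊8 d ^ 2⌋ + 1` at the `n`-th point of the orbit of the point given by `x`.
For almost every `x > 0` the number of `n ≤ N` with `W x n` prime is frequently larger than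
`c log N` for each `c < 1 / (2 log (3 + √8))` and frequently smaller than `c log N` for each
`c > 1 / (2 log (3 + √8))`.

Proof: first and second moments (prime number theorem, Brun-Titchmarsh inequality in intervals of
length `(3 + √8) ^ (2 (n - m))`) and the Lebesgue density theorem.
-/

set_option autoImplicit false

namespace Pool.Agent.Results.MP_f53aaa_nt.RealPointsOfPellConic

open Filter Topology MeasureTheory

/-- the fundamental unit `3 + √8` -/
noncomputable def η : ℝ := 3 + Real.sqrt 8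

/-- the first coordinate of the `n`-th point of the orbit: `d + b √8 = √x (3 + √8) ^ n` -/
noncomputable def d (x : ℝ) (n : ℕ) : ℝ := (Real.sqrt x * η ^ n + (Real.sqrt x * η ^ n)⁻¹) / 2

/-- the second coordinate -/
noncomputable def b (x : ℝ) (n : ℕ) : ℝ :=
  (Real.sqrt x * η ^ n - (Real.sqrt x * η ^ n)⁻¹) / (2 * Real.sqrt 8)

/-- the integer `⌊8 d ^ 2⌋ + 1` -/
noncomputable def W (x : ℝ) (n : ℕ) : ℕ := ⌊8 * d x n ^ 2⌋₊ + 1

open Classical in
/-- the number of `n ≤ N` with `W x n` prime -/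
noncomputable def M (x : ℝ) (N : ℕ) : ℕ :=
  ((Finset.range (N + 1)).filter (fun n => (W x n).Prime)).card

open Classical in
/-- **Primes at almost every real point of the Pell conic.** -/
theorem result :
    -- the points lie on the conic
    (∀ x : ℝ, 0 < x → ∀ n : ℕ, d x n ^ 2 - 8 * b x n ^ 2 = 1) ∧
    -- the orbit of `x = 1` consists of the integer points
    (∀ D B : ℕ, D ^ 2 = 8 * B ^ 2 + 1 ↔ ∃ n, d 1 n = D ∧ b 1 n = B) ∧
    -- the numbers of the problem are the numbers `W 1 n`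
    (∀ p : ℕ, (∃ B D : ℤ, (p : ℤ) = 64 * B ^ 2 + 9 ∧ (p : ℤ) = 8 * D ^ 2 + 1) ↔ ∃ n, p = W 1 n) ∧
    -- the law
    (∀ᵐ x : ℝ, 0 < x →
      (∀ c : ℝ, c < 1 / (2 * Real.log η) → ∃ᶠ N : ℕ in atTop, c * Real.log N < M x N) ∧
      (∀ c : ℝ, 1 / (2 * Real.log η) < c → ∃ᶠ N : ℕ in atTop, (M x N : ℝ) < c * Real.log N)) ∧
    -- sets of indices
    (∀ S : Set ℕ, (¬ Summable fun n : ℕ => if n ∈ S then 1 / ((n : ℝ) * Real.log n) else 0) →
      ∀ᵐ x : ℝ, 0 < x → {n : ℕ | n ∈ S ∧ (W x n).Prime}.Infinite) ∧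
    (∀ S : Set ℕ, (Summable fun n : ℕ => if n ∈ S then 1 / (n : ℝ) else 0) →
      ∀ᵐ x : ℝ, 0 < x → {n : ℕ | n ∈ S ∧ (W x n).Prime}.Finite) := by
  refine ⟨fun x hx n => Pool.Agent.TH915.PC.conic hx n, Pool.Agent.TH915.PC.pell_iff,
    Pool.Agent.TH915.PC.admissible_iff, Pool.Agent.TH915.PC.law_main, fun S hS => ?_, fun S hS => ?_⟩
  · exact Pool.Agent.TH915.PC.infinite_main S hS
  · exact Pool.Agent.TH915.PC.finite_main S hS

end Pool.Agent.Results.MP_f53aaa_nt.RealPointsOfPellConic
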